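import Mathlib

set_option autoImplicit false

/-!
# Distances from powers of two to the next odd semiprime: not every odd number occurs

`a n` is the distance from `2 ^ n` to the least odd semiprime greater than `2 ^ n`.  There is a double
covering of the integers by residue classes whose moduli divide `360`: there are `47` products `p q` of
two primes, all dividing `2 ^ 360 - 1`, such that for `k = K` every number `2 ^ n + k` is divisible by
one of them.  As `k > p q`, the number `2 ^ n + k` has at least three prime factors and is not a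
semiprime, so `a n ≠ k` for all `n`.  The same holds for all `k` in an arithmetic progression.
-/

namespace Pool.Agent.Results.MP_c49196_nt.DoubleCovering

/-- A semiprime: a product of two primes, not necessarily distinct. -/
def Semiprime (s : ℕ) : Prop := ∃ p q : ℕ, p.Prime ∧ q.Prime ∧ s = p * q

/-- The distance from `2 ^ n` to the smallest odd semiprime exceeding it. -/
noncomputable def a (n : ℕ) : ℕ := sInf {s : ℕ | 2 ^ n < s ∧ Odd s ∧ Semiprime s} - 2 ^ n

/-- The first term of the progression. -/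
def K : ℕ := 4877123116211865086389328948948672910600390233357989453438895810873

/-- The difference of the progression. -/
def M : ℕ := 12509174120720188625428674854227727917488800954874484514723474185650

/-- Pairs of primes. -/
def pairs : List (ℕ × ℕ) := [
  (3, 3), (3, 7), (3, 19), (3, 31),
  (3, 37), (3, 73), (3, 109), (5, 5),
  (5, 7), (5, 11), (5, 31), (5, 41),
  (5, 73), (5, 151), (5, 331), (7, 11),
  (7, 17), (7, 31), (7, 181), (7, 433),
  (7, 1321), (7, 61681), (7, 18837001), (11, 13),
  (11, 17), (11, 73), (11, 241), (13, 17),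
  (13, 31), (13, 61), (13, 331), (13, 61681),
  (17, 31), (17, 73), (17, 151), (17, 631),
  (17, 23311), (17, 38737), (17, 4562284561), (31, 73),
  (31, 241), (73, 151), (73, 241), (151, 241),
  (241, 631), (241, 23311), (241, 61681)]

lemma pairs_ok : ∀ c ∈ pairs, 1 < c.1 ∧ 1 < c.2 ∧ 2 ^ 360 % (c.1 * c.2) = 1 ∧ M % (c.1 * c.2) = 0 ∧
    c.1 * c.2 < K := by
  decide +kernel

lemma cover : ∀ r ∈ List.range 360, ∃ c ∈ pairs, (2 ^ r + K) % (c.1 * c.2) = 0 := by
  decide +kernel

/-- A proper multiple of a product of two numbers greater than one is not a semiprime. -/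
lemma not_semiprime {u v s : ℕ} (hu : 1 < u) (hv : 1 < v) (h : u * v ∣ s) (hs : u * v < s) :
    ¬ Semiprime s := by
  rintro ⟨p, q, hp, hq, rfl⟩
  obtain ⟨w, hw⟩ := h
  have hw1 : w ≠ 1 := by
    rintro rfl
    omega
  have hw0 : w ≠ 0 := by
    rintro rfl
    rw [mul_zero] at hw
    omega
  have h1 : ArithmeticFunction.cardFactors (p * q) = 2 := by
    rw [ArithmeticFunction.cardFactors_mul hp.ne_zero hq.ne_zero,
      ArithmeticFunction.cardFactors_apply_prime hp, ArithmeticFunction.cardFactors_apply_prime hq]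
  have h2 : ∀ y : ℕ, y ≠ 0 → y ≠ 1 → 1 ≤ ArithmeticFunction.cardFactors y := by
    intro y hy0 hy1
    by_contra hcon
    have h3 : ArithmeticFunction.cardFactors y = 0 := by omega
    rw [ArithmeticFunction.cardFactors_eq_zero_iff_eq_zero_or_one] at h3
    tauto
  rw [hw, ArithmeticFunction.cardFactors_mul (by positivity) hw0,
    ArithmeticFunction.cardFactors_mul (by omega) (by omega)] at h1
  have := h2 u (by omega) (by omega)
  have := h2 v (by omega) (by omega)
  have := h2 w hw0 hw1
  omega

/-- The numbers `2 ^ n + K + M j` are not semiprimes. -/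
lemma never (j n : ℕ) : ¬ Semiprime (2 ^ n + (K + M * j)) := by
  obtain ⟨c, hc, hr⟩ := cover (n % 360) (List.mem_range.2 (Nat.mod_lt _ (by norm_num)))
  obtain ⟨h1, h2, h3, h4, h5⟩ := pairs_ok c hc
  refine not_semiprime h1 h2 ?_ ?_
  · set D := c.1 * c.2 with hD
    have e1 : 2 ^ 360 ≡ 1 [MOD D] := by
      have hD1 : 1 % D = 1 := Nat.mod_eq_of_lt (by nlinarith)
      unfold Nat.ModEq
      rw [h3, hD1]
    have e2 : 2 ^ n ≡ 2 ^ (n % 360) [MOD D] := by
      conv_lhs => rw [← Nat.div_add_mod n 360, pow_add, pow_mul]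
      have := (e1.pow (n / 360)).mul_right (2 ^ (n % 360))
      rwa [one_pow, one_mul] at this
    have e3 : M * j ≡ 0 [MOD D] := by
      have : M ≡ 0 [MOD D] := by
        unfold Nat.ModEq
        rw [h4, Nat.zero_mod]
      simpa using this.mul_right j
    have e4 : 2 ^ n + (K + M * j) ≡ 2 ^ (n % 360) + (K + 0) [MOD D] :=
      e2.add ((Nat.ModEq.refl K).add e3)
    rw [add_zero] at e4
    exact (Nat.modEq_zero_iff_dvd).1 (e4.trans hr)
  · have : 0 < 2 ^ n := Nat.two_pow_pos n
    have : 0 ≤ M * j := Nat.zero_le _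
    omega

/-- There are odd semiprimes above `2 ^ n`, and `2 ^ n + a n` is the least of them. -/
theorem a_spec (n : ℕ) : (2 ^ n < 2 ^ n + a n ∧ Odd (2 ^ n + a n) ∧ Semiprime (2 ^ n + a n)) ∧
    ∀ s : ℕ, 2 ^ n < s → Odd s → Semiprime s → 2 ^ n + a n ≤ s := by
  have hne : {s : ℕ | 2 ^ n < s ∧ Odd s ∧ Semiprime s}.Nonempty := by
    obtain ⟨p, hp, hpp⟩ := Nat.exists_infinite_primes (2 ^ n + 3)
    have h0 : 0 < 2 ^ n := Nat.two_pow_pos n
    generalize hN : 2 ^ n = N at hp h0
    refine ⟨3 * p, ?_, ?_, 3, p, Nat.prime_three, hpp, rfl⟩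
    · omega
    · exact Odd.mul (by decide) (hpp.odd_of_ne_two (by omega))
  have h := Nat.sInf_mem hne
  have e : 2 ^ n + a n = sInf {s : ℕ | 2 ^ n < s ∧ Odd s ∧ Semiprime s} := by
    unfold a
    have := h.1
    omega
  rw [e]
  exact ⟨h, fun s h1 h2 h3 => Nat.sInf_le ⟨h1, h2, h3⟩⟩

/-- **Q1: no.** Not every odd positive integer is a value of `a`. Moreover there is an arithmetic
progression of odd positive integers `k` such that no `2 ^ n + k` with `n ≥ 0` is a semiprime, so that
none of these `k` is a value of `a`. -/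
theorem result :
    (¬ ∀ k : ℕ, Odd k → ∃ n : ℕ, a n = k) ∧
    ∃ k₀ m : ℕ, Odd k₀ ∧ Even m ∧ 0 < m ∧ ∀ j n : ℕ,
      ¬ Semiprime (2 ^ n + (k₀ + m * j)) ∧ a n ≠ k₀ + m * j := by
  have key : ∀ j n : ℕ, a n ≠ K + M * j := by
    intro j n h
    have h1 := (a_spec n).1.2.2
    rw [h] at h1
    exact never j n h1
  refine ⟨fun h => ?_, K, M, by decide +kernel, by decide +kernel, by decide +kernel,
    fun j n => ⟨never j n, key j n⟩⟩
  obtain ⟨n, hn⟩ := h K (by decide +kernel)
  exact key 0 n (by rw [hn, mul_zero, add_zero])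

end Pool.Agent.Results.MP_c49196_nt.DoubleCovering
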